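import Pool.Agent.MP_c69980_ag.N96.WrA
import Pool.Agent.MP_f3836a_nt.PK.ARiem
import Pool.Agent.MP_f3836a_nt.PK.FLow

/-!
The inequality of Riemann in any characteristic, and the bound for the number of zeros of a
vector field on a curve.
-/

set_option autoImplicit false

open IntermediateField Module

namespace Pool.Agent.MP_c69980_ag.N96

open Pool.Agent.MP_f3836a_nt.PK Pool.Agent.MP_f3836a_nt.PK.Unr

universe u

variable {k L : Type u} [Field k] [Field L] [Algebra k L]

open ARiem FCond in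
theorem riem [IsAlgClosed k] (F : IsFF k L) (A : PlA k L) (B : PlB k L) :
    ∃ g : ℤ, ∀ E : Place k L →₀ ℤ, g ≤ ∑ᶠ P, E P → ∃ f : L, f ≠ 0 ∧ ∀ P, -E P ≤ P.ord f := by
  obtain ⟨T, hT, -⟩ := id F
  obtain ⟨c, y, h1, h2, h3⟩ := rLow k L A B T ⊤ hT trivial fun f =>
    ⟨f, trivial, 1, trivial, one_ne_zero, mul_one f⟩
  have h0 : T ≠ 0 := fun h => hT (h ▸ isAlgebraic_zero)
  refine ⟨c * finrank (adjoin k {T}) L + 1, fun E hE => ?_⟩
  obtain ⟨h, k0, k1⟩ := zeros A hT E E.support
  let E' : Place k L →₀ ℤ := E - Finsupp.ofSupportFinite (fun P : Place k L => P.ord h) (B.fin h)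
  have e1 : ∀ P, E' P = E P - P.ord h := fun P => rfl
  have e2 : ∑ᶠ P, E' P = ∑ᶠ P, E P := by
    simp only [e1]
    rw [finsum_sub_distrib E.hasFiniteSupport (B.fin h), B.sum, sub_zero]
  obtain ⟨j, hj⟩ := (E'.support.finite_toSet.image fun P => (E' P).toNat).bddAbove
  have fs : (Function.support fun P : Place k L =>
      ((j + c : ℕ) : ℤ) * max (P.ord T⁻¹) 0).Finite :=
    (B.fin T⁻¹).subset fun P hP h => hP (by simp [h])
  have := (upper F A B hT (j + c)).1
  suffices key : ∃ f : L, f ≠ 0 ∧ ∀ P, -E' P ≤ P.ord f by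
    obtain ⟨f, f0, hf⟩ := key
    refine ⟨f * h⁻¹, mul_ne_zero f0 (inv_ne_zero k0), fun P => ?_⟩
    have := hf P
    rw [e1] at this
    rw [A.mul P _ _ f0 (inv_ne_zero k0), Cheb0.ord_inv A P k0]
    omega
  refine down A E' (j * finrank (adjoin k {T}) L) (Finsupp.ofSupportFinite _ fs)
    (WW k T (j + c)) (fun P => ?_) (fun f hf h P => (mem_WW A h0 h).1 hf P) ?_
    ((lower A hT (S := ⊤) trivial h1 h2 h3 j).trans (Submodule.finrank_mono inf_le_left))
  · change _ ≤ ((j + c : ℕ) : ℤ) * max (P.ord T⁻¹) 0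
    by_cases hP : T ∈ P.V
    · refine le_trans ?_ (mul_nonneg (Int.natCast_nonneg _) (le_max_right _ _))
      obtain ⟨b1, b2⟩ := k1 P hP
      rw [e1, sub_nonpos]
      by_cases hs : P ∈ E.support
      · exact b2 hs
      · rwa [Finsupp.notMem_support_iff.1 hs]
    · rw [A.mem P _ h0, not_le] at hP
      have b1 : ((j + c : ℕ) : ℤ) * 1 ≤ ((j + c : ℕ) : ℤ) * max (P.ord T⁻¹) 0 :=
        mul_le_mul_of_nonneg_left (by rw [Cheb0.ord_inv A P h0]; omega) (Int.natCast_nonneg _)
      by_cases hs : P ∈ E'.support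
      · have b2 : (E' P).toNat ≤ j := hj ⟨P, hs, rfl⟩
        omega
      · rw [Finsupp.notMem_support_iff.1 hs]
        omega
  · rw [Finsupp.ofSupportFinite_coe, ← mul_finsum,
      B.deg T⁻¹ fun h => hT (IsAlgebraic.inv_iff.1 h), Cheb0.adjoin_inv, e2]
    push_cast
    linarith

theorem infinite_place [IsAlgClosed k] (F : IsFF k L) (A : PlA k L) (B : PlB k L) :
    Infinite (Place k L) := by
  obtain ⟨T, hT, -⟩ := F
  have tr : ∀ a : k, Transcendental k (T - algebraMap k L a) := fun a h =>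
    hT (by simpa using h.add (isAlgebraic_algebraMap a))
  have ex : ∀ a : k, ∃ P : Place k L, 0 < P.ord (T - algebraMap k L a) := fun a => by
    by_contra h
    push Not at h
    have h1 := B.deg _ (tr a)
    rw [finsum_congr fun P => max_eq_right (h P), finsum_zero] at h1
    have := B.fd _ (tr a)
    have h2 : 0 < finrank (adjoin k {T - algebraMap k L a}) L := finrank_pos
    omega
  choose Q hQ using ex
  refine Infinite.of_injective Q fun a b h => ?_
  have h1 : T - algebraMap k L a ∈ Ge A (Q b) 1 := Or.inr (h ▸ hQ a)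
  have h2 : T - algebraMap k L b ∈ Ge A (Q b) 1 := Or.inr (hQ b)
  have h3 := sub_mem h2 h1
  rw [sub_sub_sub_cancel_left, ← map_sub] at h3
  have h4 := h3.resolve_right (by rw [A.con]; omega)
  rwa [map_eq_zero, sub_eq_zero] at h4

/-- The degree. -/
noncomputable def dg (E : Place k L →₀ ℤ) : ℤ := ∑ᶠ P, E P

theorem dg_add (E E' : Place k L →₀ ℤ) : dg (E + E') = dg E + dg E' :=
  finsum_add_distrib E.hasFiniteSupport E'.hasFiniteSupport

theorem dg_sub (E E' : Place k L →₀ ℤ) : dg (E - E') = dg E - dg E' :=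
  finsum_sub_distrib E.hasFiniteSupport E'.hasFiniteSupport

theorem dg_single (P : Place k L) (n : ℤ) : dg (Finsupp.single P n) = n := by
  rw [dg, finsum_eq_single _ P fun Q hQ => Finsupp.single_eq_of_ne hQ, Finsupp.single_eq_same]

variable (A : PlA k L)

/-- The space of a divisor. -/
def LL (E : Place k L →₀ ℤ) : Submodule k L where
  carrier := {f | ∀ P, f ∈ Ge A P (-E P)}
  zero_mem' := fun _ => zero_mem _
  add_mem' := fun ha hb P => add_mem (ha P) (hb P)
  smul_mem' := fun c f hf P => by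
    rw [Algebra.smul_def]
    exact ge_mono A P (zero_add _).ge (ge_mul A P ((ge_zero A P).2 (P.const c)) (hf P))

theorem mem_LL {E : Place k L →₀ ℤ} {f : L} (hf : f ∈ LL A E) (h0 : f ≠ 0) (P : Place k L) :
    -E P ≤ P.ord f := (hf P).resolve_left h0

variable [IsAlgClosed k] (F : IsFF k L) (B : PlB k L)

include F B

theorem fd_LL (E : Place k L →₀ ℤ) : FiniteDimensional k (LL A E) :=
  (rLE k L F A B E (LL A E) fun _ hf h0 => mem_LL A hf h0).2.1

theorem down' (E : Place k L →₀ ℤ) (n : ℕ) :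
    ∀ (D : Place k L →₀ ℤ) (W : Submodule k L) [FiniteDimensional k W], (∀ P, E P ≤ D P) →
      (∀ f ∈ W, f ≠ 0 → ∀ P, -D P ≤ P.ord f) → dg D ≤ dg E + n →
      finrank k W ≤ finrank k (LL A E) + n := by
  have := fd_LL A F B E
  have base : ∀ (D : Place k L →₀ ℤ) (W : Submodule k L), (∀ P, D P ≤ E P) →
      (∀ f ∈ W, f ≠ 0 → ∀ P, -D P ≤ P.ord f) → finrank k W ≤ finrank k (LL A E) :=
    fun D W h h2 => Submodule.finrank_mono fun f hf P =>
      or_iff_not_imp_left.2 fun h0 => (neg_le_neg (h P)).trans (h2 f hf h0 P)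
  induction n with
  | zero =>
    intro D W _ h1 h2 h3
    refine base D W (fun P => not_lt.1 fun hP => ?_) h2
    have h4 : dg (E + Finsupp.single P (1 : ℤ)) ≤ dg D :=
      finsum_le_finsum' (Finsupp.hasFiniteSupport _) D.hasFiniteSupport fun Q => by
        change E Q + Finsupp.single P (1 : ℤ) Q ≤ D Q
        by_cases hQ : Q = P
        · rw [hQ, Finsupp.single_eq_same]; omega
        · rw [Finsupp.single_eq_of_ne hQ, add_zero]; exact h1 Q
    rw [dg_add, dg_single] at h4
    push_cast at h3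
    omega
  | succ n ih =>
    intro D W _ h1 h2 h3
    by_cases h : ∀ P, D P ≤ E P
    · exact (base D W h h2).trans (Nat.le_add_right _ _)
    push Not at h
    obtain ⟨P, hP⟩ := h
    obtain ⟨W', a1, a2, a3⟩ := ARiem.step A P (D P) W fun f hf h0 => h2 f hf h0 P
    have := Submodule.finiteDimensional_of_le a1
    have hs := dg_sub D (Finsupp.single P 1)
    rw [dg_single] at hs
    suffices finrank k W' ≤ finrank k (LL A E) + n by omega
    refine ih (D - Finsupp.single P 1) W' (fun Q => ?_) (fun f hf h0 Q => ?_) (by omega)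
    all_goals
      rw [Finsupp.sub_apply]
      by_cases hQ : Q = P
    · rw [hQ, Finsupp.single_eq_same]
      omega
    · rw [Finsupp.single_eq_of_ne hQ, sub_zero]
      exact h1 Q
    · have := a3 f hf h0
      rw [hQ, Finsupp.single_eq_same]
      omega
    · rw [Finsupp.single_eq_of_ne hQ, sub_zero]
      exact h2 f (a1 hf) h0 Q

theorem mono {E E' : Place k L →₀ ℤ} {f : L} (h0 : f ≠ 0) (hf : ∀ P, -(E' - E) P ≤ P.ord f) :
    (finrank k (LL A E') : ℤ) + dg E ≤ finrank k (LL A E) + dg E' := by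
  let D : Place k L →₀ ℤ := E' + Finsupp.ofSupportFinite (fun P : Place k L => P.ord f) (B.fin f)
  have e1 : ∀ P, D P = E' P + P.ord f := fun P => rfl
  have e2 : dg D = dg E' := by
    rw [dg_add]
    exact add_eq_left.2 (B.sum f)
  have h1 : ∀ P, E P ≤ D P := fun P => by
    have := hf P
    rw [Finsupp.sub_apply] at this
    rw [e1]; omega
  have h2 : dg E ≤ dg D := finsum_le_finsum' E.hasFiniteSupport D.hasFiniteSupport h1
  obtain ⟨n, hn⟩ := Int.eq_ofNat_of_zero_le (sub_nonneg.2 h2)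
  have := fd_LL A F B E'
  have h3 := down' A F B E n D ((LL A E').map (LinearMap.mulRight k f⁻¹)) h1 (by
    rintro _ ⟨g, hg, rfl⟩ g0 P
    rw [LinearMap.mulRight_apply] at g0 ⊢
    have g1 := left_ne_zero_of_mul g0
    have := mem_LL A hg g1 P
    rw [A.mul P _ _ g1 (inv_ne_zero h0), PlB.ord_inv A P f h0, e1]
    omega) (by omega)
  rw [← LinearEquiv.finrank_eq (Submodule.equivMapOfInjective _
    (fun a b h => mul_right_cancel₀ (inv_ne_zero h0) h) _)] at h3
  omega

theorem bdd : ∃ g : ℤ, ∀ E : Place k L →₀ ℤ, dg E - finrank k (LL A E) < g := by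
  obtain ⟨g, hg⟩ := riem F A B
  have := infinite_place F A B
  refine ⟨g, fun E => ?_⟩
  induction hn : finrank k (LL A E) using Nat.strong_induction_on generalizing E with
  | _ n ih =>
    by_cases h : g ≤ dg E
    swap
    · omega
    obtain ⟨f, f0, hf⟩ := hg E h
    obtain ⟨Q, hQ⟩ := (E.support.finite_toSet.union (B.fin f)).infinite_compl.nonempty
    simp only [Set.mem_compl_iff, Set.mem_union, Finset.mem_coe, Finsupp.mem_support_iff,
      Set.mem_ofPred_eq, not_or, not_not] at hQ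
    have := fd_LL A F B E
    have h1 : LL A (E - Finsupp.single Q 1) < LL A E := by
      refine lt_of_le_of_ne (fun a ha P => ge_mono A P ?_ (ha P)) fun e => ?_
      · rw [Finsupp.sub_apply]
        by_cases hP : P = Q
        · rw [hP, Finsupp.single_eq_same]; omega
        · rw [Finsupp.single_eq_of_ne hP, sub_zero]
      · have h2 : f ∈ LL A E := fun P => Or.inr (hf P)
        have h3 := mem_LL A (e ▸ h2) f0 Q
        rw [Finsupp.sub_apply, Finsupp.single_eq_same] at h3
        omega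
    have h2 := Submodule.finrank_lt_finrank_of_lt h1
    have h3 := ih _ (hn ▸ h2) _ rfl
    rw [dg_sub, dg_single] at h3
    omega

variable [CharZero k] {D : Derivation k L L} (hD : D ≠ 0) {u : Place k L → L}
  (hu : ∀ P : Place k L, P.ord (u P) = 1)

include A hD hu

omit F in
theorem loc (P : Place k L) : D (u P) ≠ 0 ∧
    (∀ f ∈ P.V, D f ∈ Ge A P (P.ord (D (u P)))) ∧ ∀ f : L, P.ord f ≠ 0 →
      D f ≠ 0 ∧ P.ord (D f) = P.ord f - 1 + P.ord (D (u P)) := by
  have h0 : u P ≠ 0 := fun h => by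
    have := hu P
    rw [h, PlB.ord_zero] at this
    omega
  have h1 : D (u P) ≠ 0 := der_ne D B hD (tr_of_ord A P (by rw [hu]; omega))
  have h2 : ((D (u P))⁻¹ • D) (u P) = 1 := inv_mul_cancel₀ h1
  have e : ∀ f, D f = ((D (u P))⁻¹ • D) f * D (u P) := fun f => by
    rw [Derivation.smul_apply, smul_eq_mul]
    field_simp
  refine ⟨h1, fun f hf => ?_, fun f hf => ?_⟩
  · rw [e f]
    exact ge_mono A P (zero_add _).ge (ge_mul A P
      ((ge_zero A P).2 (der_mem _ A P h0 (hu P) B h2 hf)) (Or.inr le_rfl))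
  · have f0 : f ≠ 0 := fun h => hf (h ▸ PlB.ord_zero P)
    obtain ⟨h3, h4⟩ := der_ord _ A P h0 (hu P) B h2 f0 hf
    rw [e f, A.mul P _ _ h3 h1, h4]
    exact ⟨mul_ne_zero h3 h1, rfl⟩

theorem fin_one {T : L} (hT : Transcendental k T) (h1 : D T = 1) :
    {P : Place k L | P.ord (D (u P)) ≠ 0}.Finite := by
  have := B.fd T hT
  have : CharZero (adjoin k {T}) := charZero_of_injective_algebraMap (algebraMap k _).injective
  obtain ⟨Y, hY⟩ := Field.exists_primitive_element (adjoin k {T}) L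
  obtain ⟨G, g1, g2⟩ := exists_poly' (k := k) (T := T) Y
  obtain ⟨g, hg⟩ : ∃ g, g = Polynomial.aeval Y (Polynomial.derivative G) := ⟨_, rfl⟩
  rw [← hg] at g2
  let S := Algebra.adjoin k {T, Y, g⁻¹}
  have hle : Algebra.adjoin k {T} ≤ S := Algebra.adjoin_mono (by simp)
  have hle2 : Algebra.adjoin k {T, Y} ≤ S := Algebra.adjoin_mono (by
    rintro x (rfl | rfl) <;> simp)
  have hYS : Y ∈ S := Algebra.subset_adjoin (by simp)
  have hgS : g⁻¹ ∈ S := Algebra.subset_adjoin (by simp)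
  have d1 : ∀ b ∈ Algebra.adjoin k {T}, D b ∈ S := der_adjoin D S.toSubring.toAddSubgroup
    (fun b hb z hz => S.mul_mem (hle hb) hz)
    (fun s hs => by rw [Set.mem_singleton_iff.1 hs, h1]; exact S.one_mem)
  have d2 : D Y ∈ S := by
    have h3 : D (Polynomial.aeval Y G) - _ ∈ S := der_aeval D (x := Y) S.toSubring.toAddSubgroup
      (fun r n => S.mul_mem (pow_mem hYS n) (d1 r r.2)) G
    rw [g1, map_zero, zero_sub, ← hg] at h3
    have h4 := mul_mem hgS (neg_mem h3)
    rwa [neg_neg, inv_mul_cancel_left₀ g2] at h4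
  have d3 : ∀ b ∈ Algebra.adjoin k {T, Y}, D b ∈ S := der_adjoin D S.toSubring.toAddSubgroup
    (fun b hb z hz => S.mul_mem (hle2 hb) hz) (by
      rintro s (rfl | rfl)
      · rw [h1]; exact S.one_mem
      · exact d2)
  have d4 : ∀ b ∈ S, D b ∈ S := der_adjoin D S.toSubring.toAddSubgroup
    (fun b hb z hz => S.mul_mem hb hz) (by
      rintro s (rfl | rfl | rfl)
      · rw [h1]; exact S.one_mem
      · exact d2
      · rw [D.leibniz_inv]
        refine S.mul_mem (neg_mem (pow_mem hgS 2)) (d3 _ ?_)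
        rw [hg]
        exact aeval_mem (Algebra.adjoin_mono (by simp)) _ (Algebra.subset_adjoin (by simp)))
  refine ((B.fin T).union ((B.fin Y).union (B.fin g⁻¹))).subset fun P hP => ?_
  by_contra hn
  simp only [Set.mem_union, Set.mem_ofPred_eq, not_or, not_not] at hn
  have hS : ∀ b ∈ S, b ∈ P.V := adjoin_le A P (by
    rintro s (rfl | rfl | rfl) <;> refine (ge_zero A P).1 (Or.inr ?_) <;> omega)
  obtain ⟨-, l2, l3⟩ := loc A B hD hu P
  have z1 : P.ord (D (u P)) ≤ 0 := by
    have := (l2 T (hS T (hle (Algebra.self_mem_adjoin_singleton k T)))).resolve_left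
      (by rw [h1]; exact one_ne_zero)
    rwa [h1, PlB.ord_one A] at this
  have key : ∀ (n : ℕ), ∀ x ∈ S, x ≠ 0 → P.ord x = n → (1 - P.ord (D (u P))) ∣ P.ord x := by
    intro n
    induction n using Nat.strong_induction_on with
    | _ n ih =>
      intro x hx x0 hn
      by_cases h : P.ord x = 0
      · rw [h]; exact dvd_zero _
      obtain ⟨h3, h4⟩ := l3 x h
      obtain ⟨m, hm⟩ := Int.eq_ofNat_of_zero_le ((A.mem P _ h3).1 (hS _ (d4 x hx)))
      have h5 := ih m (by omega) _ (d4 x hx) h3 hm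
      have h6 : P.ord x = P.ord (D x) + (1 - P.ord (D (u P))) := by omega
      rw [h6]
      exact dvd_add h5 dvd_rfl
  have key' : ∀ x ∈ S, x ≠ 0 → (1 - P.ord (D (u P))) ∣ P.ord x := fun x hx x0 => by
    obtain ⟨m, hm⟩ := Int.eq_ofNat_of_zero_le ((A.mem P _ x0).1 (hS _ hx))
    exact key m x hx x0 hm
  have hm : u P ∈ adjoin k {T, Y} := by
    rw [← adjoin_simple_adjoin_simple, hY]
    trivial
  obtain ⟨r, hr, s, hs, e⟩ := mem_adjoin_iff_div.1 hm
  have h0 : u P ≠ 0 := fun h => by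
    have := hu P
    rw [h, PlB.ord_zero] at this
    omega
  have r0 : r ≠ 0 := fun h => h0 (by rw [e, h, zero_div])
  have s0 : s ≠ 0 := fun h => h0 (by rw [e, h, div_zero])
  have h7 := hu P
  rw [e, div_eq_mul_inv, A.mul P _ _ r0 (inv_ne_zero s0), PlB.ord_inv A P s s0] at h7
  have h8 := dvd_add (key' r (hle2 hr) r0) ((dvd_neg).2 (key' s (hle2 hs) s0))
  rw [h7] at h8
  have h9 := Int.eq_one_of_dvd_one (by omega) h8
  exact hP (by omega)

theorem fin_all : {P : Place k L | P.ord (D (u P)) ≠ 0}.Finite := by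
  obtain ⟨T, hT, -⟩ := id F
  have h1 := der_ne D B hD hT
  have h2 : ((D T)⁻¹ • D) T = 1 := inv_mul_cancel₀ h1
  have h3 : (D T)⁻¹ • D ≠ 0 := fun h => by simp [h] at h2
  refine ((fin_one A F B h3 hu hT h2).union (B.fin (D T)⁻¹)).subset fun P hP => ?_
  by_contra hn
  simp only [Set.mem_union, Set.mem_ofPred_eq, not_or, not_not] at hn
  obtain ⟨h4, h5⟩ := hn
  rw [Derivation.smul_apply, smul_eq_mul, A.mul P _ _ (inv_ne_zero h1) (loc A B hD hu P).1] at h4
  exact hP (by omega)

theorem sum_le : ∑ᶠ P : Place k L, P.ord (D (u P)) ≤ 2 := by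
  let Z : Place k L →₀ ℤ :=
    Finsupp.ofSupportFinite (fun P : Place k L => P.ord (D (u P))) (fin_all A F B hD hu)
  have eZ : ∀ P, Z P = P.ord (D (u P)) := fun P => rfl
  change dg Z ≤ 2
  obtain ⟨g, hg⟩ := bdd A F B
  obtain ⟨μ, ⟨E₀, h0⟩, hmax⟩ := Int.exists_greatest_of_bdd
    (P := fun z => ∃ E : Place k L →₀ ℤ, dg E - finrank k (LL A E) = z)
    ⟨g, by rintro _ ⟨E, rfl⟩; exact (hg E).le⟩ ⟨_, 0, rfl⟩
  obtain ⟨g', hg'⟩ := riem F A B
  obtain ⟨Q⟩ := LE.nonempty F B
  obtain ⟨n, hn⟩ : ∃ n : ℕ, g' + dg Z + dg E₀ ≤ n := ⟨_, Int.self_le_toNat _⟩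
  let E : Place k L →₀ ℤ := Finsupp.single Q (n : ℤ)
  let E' : Place k L →₀ ℤ := Finsupp.single Q ((n : ℤ) + 1) - Z
  have d1 : dg E = n := dg_single _ _
  have d2 : dg E' = n + 1 - dg Z := by rw [dg_sub, dg_single]
  obtain ⟨f, f0, hf⟩ := hg' (E' - E₀) (by
    change _ ≤ dg _
    rw [dg_sub]; omega)
  have m1 := mono A F B f0 hf
  have m2 := hmax _ ⟨E, rfl⟩
  have := fd_LL A F B E
  have := fd_LL A F B E'
  let φ : LL A E →ₗ[k] L := (D : L →ₗ[k] L).domRestrict _
  have r1 := φ.finrank_range_add_finrank_ker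
  have r2 : finrank k (LinearMap.range φ) ≤ finrank k (LL A E') := by
    refine Submodule.finrank_mono ?_
    rintro _ ⟨⟨a, ha⟩, rfl⟩ P
    change D a ∈ _
    obtain ⟨-, l2, l3⟩ := loc A B hD hu P
    have e1 : E' P = Finsupp.single Q ((n : ℤ) + 1) P - P.ord (D (u P)) := rfl
    by_cases h : a ∈ P.V
    · refine ge_mono A P ?_ (l2 a h)
      rw [e1]
      by_cases hP : P = Q
      · rw [hP, Finsupp.single_eq_same]; omega
      · rw [Finsupp.single_eq_of_ne hP]; omega
    · have a0 : a ≠ 0 := fun h' => h (h' ▸ zero_mem _)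
      rw [A.mem P a a0] at h
      have h3 := mem_LL A ha a0 P
      refine Or.inr ?_
      rw [(l3 a (by omega)).2, e1]
      by_cases hP : P = Q
      · rw [hP, Finsupp.single_eq_same] at h3 ⊢; omega
      · rw [Finsupp.single_eq_of_ne hP] at h3; omega
  have r3 : finrank k (LinearMap.ker φ) ≤ 1 := by
    rw [← Submodule.finrank_map_subtype_eq]
    refine (Submodule.finrank_mono (t := Submodule.span k {(1 : L)}) ?_).trans
      (finrank_span_singleton one_ne_zero).le
    rintro _ ⟨⟨a, ha⟩, h, rfl⟩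
    obtain ⟨c, rfl⟩ := (PlB.const_or (k := k) a).resolve_right fun t => der_ne D B hD t h
    exact Submodule.mem_span_singleton.2 ⟨c, (Algebra.algebraMap_eq_smul_one c).symm⟩
  omega

end Pool.Agent.MP_c69980_ag.N96
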