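import Pool.Agent.MP_f3836a_nt.PK.Unr
import Pool.Agent.MP_f3836a_nt.PK.PlB

/-!
Derivations of a function field of one variable in characteristic zero: local properties.
-/

set_option autoImplicit false

open Polynomial

namespace Pool.Agent.MP_c69980_ag.N96

open Pool.Agent.MP_f3836a_nt.PK Pool.Agent.MP_f3836a_nt.PK.Unr

universe u

variable {k F : Type u} [Field k] [Field F] [Algebra k F]

theorem exists_poly {R : Type u} [CommRing R] [IsDomain R] [CharZero R] [Algebra R F]
    [FaithfulSMul R F] {x : F} (hx : IsAlgebraic R x) :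
    ∃ G : R[X], aeval x G = 0 ∧ aeval x (derivative G) ≠ 0 := by
  obtain ⟨G, h0, hG⟩ := hx
  induction hn : G.natDegree using Nat.strong_induction_on generalizing G with
  | _ n ih =>
    by_cases h : aeval x (derivative G) = 0
    swap
    · exact ⟨G, hG, h⟩
    have h1 : G.natDegree ≠ 0 := fun h1 => by
      rw [eq_C_of_natDegree_eq_zero h1, aeval_C,
        map_eq_zero_iff _ (FaithfulSMul.algebraMap_injective R F)] at hG
      exact h0 (by rw [eq_C_of_natDegree_eq_zero h1, hG, map_zero])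
    exact ih _ (hn ▸ natDegree_derivative_lt h1) (derivative G)
      (fun h2 => h1 (natDegree_eq_zero_of_derivative_eq_zero h2)) h rfl

theorem exists_poly' [CharZero k] {T : F} [FiniteDimensional (IntermediateField.adjoin k {T}) F]
    (x : F) : ∃ G : (Algebra.adjoin k {T})[X], aeval x G = 0 ∧ aeval x (derivative G) ≠ 0 := by
  have : CharZero (Algebra.adjoin k {T}) :=
    charZero_of_injective_algebraMap (algebraMap k _).injective
  exact exists_poly (IntermediateField.isAlgebraic_adjoin_iff.mp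
    (Algebra.IsAlgebraic.isAlgebraic x))

variable (D : Derivation k F F)

theorem der_aeval {R : Subalgebra k F} {x : F} (N : AddSubgroup F)
    (h : ∀ (r : R) (n : ℕ), x ^ n * D r ∈ N) (G : R[X]) :
    D (aeval x G) - aeval x (derivative G) * D x ∈ N := by
  induction G using Polynomial.induction_on' with
  | add p q hp hq =>
    have := add_mem hp hq
    simp only [map_add]
    convert this using 1
    ring
  | monomial n r =>
    have := h r n
    rw [aeval_monomial, derivative_monomial, aeval_monomial, D.leibniz, D.leibniz_pow]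
    convert this using 1
    simp only [smul_eq_mul, nsmul_eq_mul, map_mul, map_natCast, Subalgebra.algebraMap_def,
      Algebra.algebraMap_self, RingHom.id_apply]
    ring

theorem der_adjoin {S : Set F} (N : AddSubgroup F)
    (h1 : ∀ b ∈ Algebra.adjoin k S, ∀ z ∈ N, b * z ∈ N) (h2 : ∀ s ∈ S, D s ∈ N) :
    ∀ b ∈ Algebra.adjoin k S, D b ∈ N := by
  intro b hb
  induction hb using Algebra.adjoin_induction with
  | mem x hx => exact h2 x hx
  | algebraMap r => rw [D.map_algebraMap]; exact zero_mem _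
  | add x y _ _ hx hy => rw [map_add]; exact add_mem hx hy
  | mul x y a b hx hy => rw [D.leibniz]; exact add_mem (h1 _ a _ hy) (h1 _ b _ hx)

theorem der_ne [CharZero k] (B : PlB k F) (hD : D ≠ 0) {T : F} (hT : Transcendental k T) :
    D T ≠ 0 := by
  intro h0
  have := B.fd T hT
  refine hD (Derivation.ext fun x => ?_)
  obtain ⟨G, h1, h2⟩ := exists_poly' (k := k) (T := T) x
  have h3 := der_aeval D (x := x) ⊥ (fun r n => by
    have := der_adjoin D (S := {T}) ⊥ (fun b _ z hz => by simp [AddSubgroup.mem_bot.1 hz])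
      (fun s hs => by rw [Set.mem_singleton_iff.1 hs, h0]; exact zero_mem _) r r.2
    simp [AddSubgroup.mem_bot.1 this]) G
  rw [h1, map_zero, zero_sub, AddSubgroup.mem_bot, neg_eq_zero] at h3
  exact (mul_eq_zero.1 h3).resolve_left h2

variable (A : PlA k F) (P : Place k F)

include A

theorem ge_mul {m n : ℤ} {a b : F} (ha : a ∈ Ge A P m) (hb : b ∈ Ge A P n) :
    a * b ∈ Ge A P (m + n) := by
  by_cases h1 : a = 0
  · exact Or.inl (by simp [h1])
  by_cases h2 : b = 0
  · exact Or.inl (by simp [h2])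
  exact Or.inr (by rw [A.mul P a b h1 h2]; exact add_le_add (ha.resolve_left h1) (hb.resolve_left h2))

theorem ge_mono {m n : ℤ} (h : m ≤ n) {a : F} (ha : a ∈ Ge A P n) : a ∈ Ge A P m :=
  ha.imp_right h.trans

theorem ord_add_eq {a b : F} (ha : a ≠ 0) (hb : b ∈ Ge A P (P.ord a + 1)) :
    a + b ≠ 0 ∧ P.ord (a + b) = P.ord a := by
  have h1 : a + b ∉ Ge A P (P.ord a + 1) := fun h => by
    have h2 : a ∈ Ge A P (P.ord a + 1) := by simpa using sub_mem h hb
    have := h2.resolve_left ha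
    omega
  have h2 : a + b ∈ Ge A P (P.ord a) := add_mem (Or.inr le_rfl) (ge_mono A P (by omega) hb)
  have h3 : a + b ≠ 0 := fun h => h1 (Or.inl h)
  have h4 := h2.resolve_left h3
  have h5 : ¬ (P.ord a + 1 ≤ P.ord (a + b)) := fun h => h1 (Or.inr h)
  exact ⟨h3, by omega⟩

theorem tr_of_ord [IsAlgClosed k] {f : F} (h : P.ord f ≠ 0) : Transcendental k f :=
  (PlB.const_or (k := k) f).resolve_left fun ⟨a, ha⟩ => h (ha ▸ A.con P a)

theorem adjoin_le {S : Set F} (h : ∀ s ∈ S, s ∈ P.V) : ∀ b ∈ Algebra.adjoin k S, b ∈ P.V := by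
  intro b hb
  induction hb using Algebra.adjoin_induction with
  | mem x hx => exact h x hx
  | algebraMap r => exact P.const r
  | add x y _ _ hx hy => exact add_mem hx hy
  | mul x y _ _ hx hy => exact mul_mem hx hy

variable {π : F} (h0 : π ≠ 0) (h1 : P.ord π = 1)

include h0 h1

theorem pi_mem : π ∈ P.V := (A.mem P π h0).2 (by omega)

theorem pow_ge (n : ℕ) : π ^ n ∈ Ge A P n := Or.inr (by rw [ord_pow A P h0, h1]; omega)

theorem expand (N : ℕ) {x : F} (hx : x ∈ P.V) :
    ∃ r ∈ Algebra.adjoin k {π}, ∃ y ∈ P.V, x = r + π ^ N * y := by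
  induction N with
  | zero => exact ⟨0, zero_mem _, x, hx, by simp⟩
  | succ N ih =>
    obtain ⟨r, hr, y, hy, rfl⟩ := ih
    refine ⟨r + π ^ N * algebraMap k F (P.val y), add_mem hr (mul_mem
      (pow_mem (Algebra.self_mem_adjoin_singleton k π) N) (Subalgebra.algebraMap_mem _ _)),
      (y - algebraMap k F (P.val y)) * π⁻¹, ?_, by field_simp; ring⟩
    have h2 : y - algebraMap k F (P.val y) ∈ Ge A P 1 := (A.val P y hy _).2 rfl
    have h3 : π⁻¹ ∈ Ge A P (-1) := Or.inr (by rw [PlB.ord_inv A P π h0, h1])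
    exact (ge_zero A P).1 (ge_mul A P h2 h3)

theorem factor (n : ℕ) : ∀ r ∈ Algebra.adjoin k {π}, r ∈ Ge A P n →
    ∃ w ∈ Algebra.adjoin k {π}, r = π ^ n * w := by
  induction n with
  | zero => exact fun r hr _ => ⟨r, hr, by simp⟩
  | succ n ih =>
    intro r hr h
    obtain ⟨w, hw, rfl⟩ := ih r hr (ge_mono A P (by push_cast; omega) h)
    rw [Algebra.adjoin_singleton_eq_range_aeval] at hw
    obtain ⟨q, rfl⟩ := hw
    have e : aeval π q = π * aeval π q.divX + algebraMap k F (q.coeff 0) := by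
      have := congrArg (aeval π) (X_mul_divX_add q)
      rw [map_add, map_mul, aeval_X, aeval_C] at this
      exact this.symm
    have hm : aeval π q.divX ∈ Algebra.adjoin k {π} := by
      rw [Algebra.adjoin_singleton_eq_range_aeval]
      exact ⟨_, rfl⟩
    have h2 : (π ^ n)⁻¹ ∈ Ge A P (-n) :=
      Or.inr (by rw [PlB.ord_inv A P _ (pow_ne_zero _ h0), ord_pow A P h0, h1]; omega)
    have h3 := ge_mul A P h2 h
    change (π ^ n)⁻¹ * (π ^ n * aeval π q) ∈ _ at h3
    rw [inv_mul_cancel_left₀ (pow_ne_zero _ h0)] at h3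
    have h4 : π * aeval π q.divX ∈ Ge A P (1 + 0) := ge_mul A P (Or.inr h1.ge)
      ((ge_zero A P).2 (adjoin_le A P (by simpa using pi_mem A P h0 h1) _ hm))
    have h5 : algebraMap k F (q.coeff 0) ∈ Ge A P 1 := by
      rw [eq_sub_of_add_eq' e.symm]
      exact sub_mem (ge_mono A P (by push_cast; omega) h3) h4
    have h6 : algebraMap k F (q.coeff 0) = 0 := h5.resolve_right (by rw [A.con]; omega)
    refine ⟨_, hm, ?_⟩
    change π ^ n * aeval π q = _
    rw [e, h6]
    ring

omit A h0 h1 in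
theorem taylor2 {R B : Subalgebra k F} (h : R ≤ B) (G : R[X]) {r z : F} (hr : r ∈ B) (hz : z ∈ B) :
    ∃ q ∈ B, aeval (r + z) G = aeval r G + aeval r (derivative G) * z + q * z ^ 2 := by
  obtain ⟨q, hq⟩ := (G.map (Subalgebra.inclusion h).toRingHom).binomExpansion ⟨r, hr⟩ ⟨z, hz⟩
  have e : ∀ (H : R[X]) (b : B),
      ((eval b (H.map (Subalgebra.inclusion h).toRingHom) : B) : F) = aeval (b : F) H :=
    fun H b => by
      rw [eval_map, aeval_def]
      exact hom_eval₂ H _ B.val.toRingHom b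
  refine ⟨q, q.2, ?_⟩
  have := congrArg Subtype.val hq
  rw [derivative_map] at this
  simpa only [e, Subalgebra.coe_add, Subalgebra.coe_mul, Subalgebra.coe_pow] using this

omit A h0 h1 in
theorem aeval_mem {R B : Subalgebra k F} (h : R ≤ B) (G : R[X]) {r : F} (hr : r ∈ B) :
    aeval r G ∈ B := by
  rw [aeval_eq_sum_range]
  exact sum_mem fun i _ => mul_mem (h (G.coeff i).2) (pow_mem hr i)

theorem der_mem [IsAlgClosed k] [CharZero k] (B : PlB k F) (hD : D π = 1) {x : F}
    (hx : x ∈ P.V) : D x ∈ P.V := by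
  have := B.fd π (tr_of_ord A P (by omega))
  obtain ⟨G, g1, g2⟩ := exists_poly' (k := k) (T := π) x
  have hπ := pi_mem A P h0 h1
  have hR : ∀ b ∈ Algebra.adjoin k {π}, D b ∈ P.V :=
    der_adjoin D P.V.toSubring.toAddSubgroup
      (fun b hb z hz => P.V.toSubring.mul_mem (adjoin_le A P (by simpa using hπ) b hb) hz)
      (fun s hs => by rw [Set.mem_singleton_iff.1 hs, hD]; exact P.V.toSubring.one_mem)
  have hg : aeval x (derivative G) ∈ P.V :=
    adjoin_le A P (S := {π, x}) (by rintro s (rfl | rfl) <;> assumption) _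
      (aeval_mem (Algebra.adjoin_mono (by simp)) _ (Algebra.subset_adjoin (by simp)))
  obtain ⟨c, hc⟩ := Int.eq_ofNat_of_zero_le ((A.mem P _ g2).1 hg)
  obtain ⟨r, hr, y, hy, rfl⟩ := expand A P h0 h1 (c + 1) hx
  let S := Algebra.adjoin k {π, y}
  have hS : ∀ b ∈ S, b ∈ P.V := adjoin_le A P (by rintro s (rfl | rfl) <;> assumption)
  have hle : Algebra.adjoin k {π} ≤ S := Algebra.adjoin_mono (by simp)
  have hyS : y ∈ S := Algebra.subset_adjoin (by simp)
  have hz : π ^ (c + 1) * y ∈ S :=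
    mul_mem (pow_mem (hle (Algebra.self_mem_adjoin_singleton k π)) _) hyS
  have hz' : π ^ (c + 1) * y ∈ Ge A P ((c + 1 : ℕ) + 0) :=
    ge_mul A P (pow_ge A P h0 h1 _) ((ge_zero A P).2 hy)
  obtain ⟨q, hq, e1⟩ := taylor2 hle G (hle hr) hz
  obtain ⟨q', hq', e2⟩ := taylor2 hle (derivative G) (hle hr) hz
  have k1 : aeval r (derivative G) ≠ 0 ∧ P.ord (aeval r (derivative G)) = c := by
    have e3 : aeval r (derivative G) = aeval (r + π ^ (c + 1) * y) (derivative G) +
        -(π ^ (c + 1) * y * (aeval r (derivative (derivative G)) + q' * (π ^ (c + 1) * y))) := by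
      rw [e2]; ring
    rw [e3, ← hc]
    refine ord_add_eq A P g2 (neg_mem (ge_mono A P ?_ (ge_mul A P hz' ((ge_zero A P).2
      (hS _ (add_mem (aeval_mem hle _ (hle hr)) (mul_mem hq' hz)))))))
    rw [hc]; push_cast; omega
  obtain ⟨v, hv, e4⟩ := factor A P h0 h1 c _ (aeval_mem le_rfl (derivative G) hr) (Or.inr k1.2.ge)
  have v0 : v ≠ 0 := fun h => k1.1 (by rw [e4, h, mul_zero])
  have v1 : P.ord v = 0 := by
    have := k1.2
    rw [e4, A.mul P _ _ (pow_ne_zero _ h0) v0, ord_pow A P h0, h1] at this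
    omega
  have e5 : aeval r G = π ^ (c + (c + 1)) * -(v * y + π * (q * y ^ 2)) := by
    rw [g1, e4] at e1
    linear_combination -e1
  have hπS := hle (Algebra.self_mem_adjoin_singleton k π)
  obtain ⟨w, hw, e6⟩ := factor A P h0 h1 (c + (c + 1)) _ (aeval_mem le_rfl G hr) (by
    rw [e5]
    exact ge_mono A P (add_zero _).ge (ge_mul A P (pow_ge A P h0 h1 _) ((ge_zero A P).2
      (hS _ (neg_mem (add_mem (mul_mem (hle hv) hyS)
        (mul_mem hπS (mul_mem hq (pow_mem hyS 2)))))))))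
  have e7 : w + v * y + π * (q * y ^ 2) = 0 := by
    have := mul_left_cancel₀ (pow_ne_zero _ h0) (e6.symm.trans e5)
    linear_combination this
  let N : AddSubgroup F :=
    { carrier := {z | ∃ a ∈ P.V, ∃ b ∈ P.V, z = a + b * D y}
      zero_mem' := ⟨0, zero_mem _, 0, zero_mem _, by simp⟩
      add_mem' := by
        rintro _ _ ⟨a, ha, b, hb, rfl⟩ ⟨a', ha', b', hb', rfl⟩
        exact ⟨_, add_mem ha ha', _, add_mem hb hb', by ring⟩
      neg_mem' := by
        rintro _ ⟨a, ha, b, hb, rfl⟩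
        exact ⟨_, neg_mem ha, _, neg_mem hb, by ring⟩ }
  obtain ⟨a, ha, b, hb, e8⟩ := der_adjoin D (S := {π, y}) N
    (by
      rintro s hs _ ⟨a, ha, b, hb, rfl⟩
      exact ⟨_, mul_mem (hS s hs) ha, _, mul_mem (hS s hs) hb, by ring⟩)
    (by
      rintro s (rfl | rfl)
      · exact ⟨1, one_mem _, 0, zero_mem _, by simp [hD]⟩
      · exact ⟨0, zero_mem _, 1, one_mem _, by simp⟩) _ (mul_mem hq (pow_mem hyS 2))
  have e9 := congrArg D e7
  rw [map_zero, map_add, map_add, D.leibniz, D.leibniz π, e8, hD] at e9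
  simp only [smul_eq_mul] at e9
  obtain ⟨k2, k3⟩ := ord_add_eq A P (b := π * b) v0 (by
    rw [v1]
    simpa using ge_mul A P (Or.inr h1.ge : π ∈ Ge A P 1) ((ge_zero A P).2 hb))
  have k4 : (v + π * b)⁻¹ ∈ P.V :=
    (A.mem P _ (inv_ne_zero k2)).2 (by rw [PlB.ord_inv A P _ k2, k3, v1]; omega)
  have k5 : D y ∈ P.V := by
    have : D y = (v + π * b)⁻¹ * -(D w + y * D v + π * a + q * y ^ 2) := by
      rw [eq_inv_mul_iff_mul_eq₀ k2]
      linear_combination e9
    rw [this]
    exact mul_mem k4 (neg_mem (add_mem (add_mem (add_mem (hR w hw) (mul_mem hy (hR v hv)))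
      (mul_mem hπ ha)) (hS _ (mul_mem hq (pow_mem hyS 2)))))
  rw [map_add, D.leibniz]
  exact add_mem (hR r hr) (add_mem (mul_mem (pow_mem hπ _) k5)
    (mul_mem hy (hR _ (pow_mem (Algebra.self_mem_adjoin_singleton k π) _))))

theorem der_ord [IsAlgClosed k] [CharZero k] (B : PlB k F) (hD : D π = 1) {f : F} (hf : f ≠ 0)
    (hj : P.ord f ≠ 0) : D f ≠ 0 ∧ P.ord (D f) = P.ord f - 1 := by
  obtain ⟨j, hj'⟩ : ∃ j, j = P.ord f := ⟨_, rfl⟩
  have oz : ∀ n : ℤ, P.ord (π ^ n) = n := fun n => by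
    obtain ⟨m, rfl | rfl⟩ := Int.eq_nat_or_neg n
    · rw [zpow_natCast, ord_pow A P h0, h1, mul_one]
    · rw [zpow_neg, zpow_natCast, PlB.ord_inv A P _ (pow_ne_zero _ h0), ord_pow A P h0, h1,
        mul_one]
  obtain ⟨v, hv⟩ : ∃ v, f = π ^ j * v :=
    ⟨(π ^ j)⁻¹ * f, (mul_inv_cancel_left₀ (zpow_ne_zero _ h0) f).symm⟩
  have v0 : v ≠ 0 := fun h => hf (by rw [hv, h, mul_zero])
  have v1 : P.ord v = 0 := by
    have := A.mul P _ _ (zpow_ne_zero j h0) v0
    rw [← hv, oz] at this
    omega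
  have j0 : algebraMap k F (j : k) ≠ 0 := by
    rw [_root_.map_ne_zero, Int.cast_ne_zero, hj']
    exact hj
  have k1 : P.ord (algebraMap k F (j : k) * v) = 0 := by
    rw [A.mul P _ _ j0 v0, A.con, v1, add_zero]
  obtain ⟨k2, k3⟩ := ord_add_eq A P (b := π * D v) (mul_ne_zero j0 v0) (by
    rw [k1]
    simpa using ge_mul A P (Or.inr h1.ge : π ∈ Ge A P 1)
      ((ge_zero A P).2 (der_mem D A P h0 h1 B hD ((A.mem P v v0).2 v1.ge))))
  have e : D f = π ^ (j - 1) * (algebraMap k F (j : k) * v + π * D v) := by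
    rw [hv, D.leibniz, D.leibniz_zpow, hD, map_intCast]
    simp only [smul_eq_mul, zsmul_eq_mul, zpow_sub_one₀ h0]
    field_simp
    ring
  rw [e, A.mul P _ _ (zpow_ne_zero _ h0) k2, oz, k3, k1, ← hj', add_zero]
  exact ⟨mul_ne_zero (zpow_ne_zero _ h0) k2, rfl⟩

end Pool.Agent.MP_c69980_ag.N96
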