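import Mathlib

/-!
Numerical contraction lemma for one fibre of a fibred surface: an induction on the number of
components that contracts numerical `(-1)`-curves.
-/

set_option autoImplicit false

open Finset

namespace Pool.Agent.MP_c69980_ag.N96

variable {I : Type} [DecidableEq I]

/-- Numerical data of a fibre with components indexed by `S`. -/
structure Dat (S : Finset I) (a : I → I → ℤ) (m k d η β : I → ℤ) (M : ℤ) : Prop where
  sym : ∀ i j, a i j = a j i
  pos : ∀ i ∈ S, ∀ j ∈ S, i ≠ j → 0 ≤ a i j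
  mp : ∀ i ∈ S, 1 ≤ m i
  am : ∀ i ∈ S, ∑ j ∈ S, a i j * m j = 0
  adj : ∀ i ∈ S, -2 ≤ k i + a i i
  Mp : 1 ≤ M
  ηp : ∀ i ∈ S, 0 ≤ η i
  βp : ∀ i ∈ S, 0 ≤ β i
  ad : ∀ i ∈ S, ∑ j ∈ S, a i j * d j + η i - M * β i = M * k i

/-- A bubble vector from the class `o` to the class `c`. -/
structure Vec (S : Finset I) (a : I → I → ℤ) (m k β : I → ℤ) (o c : I) (v : I → ℤ) : Prop where
  oS : o ∈ S
  cS : c ∈ S
  mo : m o = 1
  mc : m c = 1
  vp : ∀ i ∈ S, 0 ≤ v i
  av : ∀ i ∈ S, ∑ j ∈ S, a i j * v j = (if i = c then 1 else 0) - (if i = o then 1 else 0)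
  kv : ∑ i ∈ S, k i * v i + v c + v o = 0
  βv : ∑ i ∈ S, β i * v i = 0

theorem lemZ {S : Finset I} {a : I → I → ℤ} {m k d η β : I → ℤ} {M : ℤ}
    (D : Dat S a m k d η β M) {o c c' : I} {v w : I → ℤ} (V : Vec S a m k β o c v)
    (W : Vec S a m k β o c' w) (h : w o = 0) : c' = o ∧ w c = 0 := by
  have h1 : 0 ≤ ∑ j ∈ S, a o j * w j := by
    refine sum_nonneg fun j hj => ?_
    by_cases e : o = j
    · subst e; simp [h]
    · exact mul_nonneg (D.pos o V.oS j hj e) (W.vp j hj)
  have h2 := W.av o V.oS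
  have hc : c' = o := by
    by_contra hne
    rw [if_neg (Ne.symm hne), if_pos rfl] at h2
    omega
  refine ⟨hc, ?_⟩
  subst hc
  have h3 : ∑ i ∈ S, w i * ∑ j ∈ S, a i j * v j = ∑ j ∈ S, v j * ∑ i ∈ S, a j i * w i := by
    simp only [mul_sum]
    rw [sum_comm]
    refine sum_congr rfl fun j _ => sum_congr rfl fun i _ => ?_
    rw [D.sym i j]; ring
  have h4 : ∑ j ∈ S, v j * ∑ i ∈ S, a j i * w i = 0 :=
    sum_eq_zero fun j hj => by rw [W.av j hj]; simp
  have h5 : ∑ i ∈ S, w i * ∑ j ∈ S, a i j * v j = w c - w c' := by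
    rw [sum_congr rfl fun i hi => by rw [V.av i hi]]
    simp [mul_sub, sum_sub_distrib, V.cS, V.oS]
  omega

section step

variable {S : Finset I} {a : I → I → ℤ} {m k d η β : I → ℤ} {M : ℤ} {e : I}

theorem row_e (he : e ∈ S) (ha : a e e = -1) (u : I → ℤ) :
    ∑ j ∈ S.erase e, a e j * u j = ∑ j ∈ S, a e j * u j + u e := by
  rw [← add_sum_erase S (fun j => a e j * u j) he, ha]; ring

theorem row_i (D : Dat S a m k d η β M) (he : e ∈ S) (ha : a e e = -1) (u : I → ℤ) (i : I) :
    ∑ j ∈ S.erase e, (a i j + a e i * a e j) * u j =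
      ∑ j ∈ S, a i j * u j + a e i * ∑ j ∈ S, a e j * u j := by
  have h1 := row_e (a := a) he ha u
  have h2 := add_sum_erase S (fun j => a i j * u j) he
  have h3 : ∑ j ∈ S.erase e, (a i j + a e i * a e j) * u j =
      ∑ j ∈ S.erase e, a i j * u j + a e i * ∑ j ∈ S.erase e, a e j * u j := by
    rw [mul_sum, ← sum_add_distrib]
    exact sum_congr rfl fun j _ => by ring
  rw [h3, h1, ← h2, D.sym i e]; ring

theorem Dat.contract (D : Dat S a m k d η β M) (he : e ∈ S) (ha : a e e = -1) (hk : k e = -1)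
    (hβ : β e = 0) :
    Dat (S.erase e) (fun i j => a i j + a e i * a e j) m (fun i => k i - a e i) d
      (fun i => η i + a e i * η e) β M where
  sym i j := by rw [D.sym i j]; ring
  pos i hi j hj hij := by
    have h1 := D.pos i (mem_of_mem_erase hi) j (mem_of_mem_erase hj) hij
    have h2 := D.pos e he i (mem_of_mem_erase hi) (ne_of_mem_erase hi).symm
    have h3 := D.pos e he j (mem_of_mem_erase hj) (ne_of_mem_erase hj).symm
    positivity
  mp i hi := D.mp i (mem_of_mem_erase hi)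
  am i hi := by rw [row_i D he ha, D.am i (mem_of_mem_erase hi), D.am e he]; ring
  adj i hi := by
    have h1 := D.adj i (mem_of_mem_erase hi)
    have h2 : a e i ≤ a e i * a e i := by
      rcases le_or_gt (a e i) 0 with h | h
      · exact h.trans (mul_self_nonneg _)
      · exact le_mul_of_one_le_left h.le h
    linarith
  Mp := D.Mp
  ηp i hi := by
    have h1 := D.ηp i (mem_of_mem_erase hi)
    have h2 := D.pos e he i (mem_of_mem_erase hi) (ne_of_mem_erase hi).symm
    have h3 := D.ηp e he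
    positivity
  βp i hi := D.βp i (mem_of_mem_erase hi)
  ad i hi := by
    have h1 := D.ad i (mem_of_mem_erase hi)
    have h2 := D.ad e he
    rw [hk, hβ] at h2
    rw [row_i D he ha]
    linear_combination h1 + a e i * h2

theorem exists_j0 (D : Dat S a m k d η β M) (he : e ∈ S) (ha : a e e = -1) :
    ∃ j0, m e = 1 → j0 ∈ S.erase e ∧ m j0 = 1 ∧
      ∀ i ∈ S.erase e, a e i = if i = j0 then 1 else 0 := by
  by_cases hm : m e = 1
  swap
  · exact ⟨e, fun h => (hm h).elim⟩
  have h1 := row_e (a := a) he ha m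
  rw [D.am e he, hm, zero_add] at h1
  have hp : ∀ i ∈ S.erase e, 0 ≤ a e i := fun i hi =>
    D.pos e he i (mem_of_mem_erase hi) (ne_of_mem_erase hi).symm
  have hq : ∀ i ∈ S.erase e, 0 ≤ a e i * m i := fun i hi =>
    mul_nonneg (hp i hi) (zero_le_one.trans (D.mp i (mem_of_mem_erase hi)))
  obtain ⟨j0, hj0, hne⟩ := exists_ne_zero_of_sum_ne_zero (s := S.erase e)
    (f := fun j => a e j * m j) (by rw [h1]; exact one_ne_zero)
  have h2 := add_sum_erase (S.erase e) (fun j => a e j * m j) hj0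
  have h3 : 0 ≤ ∑ j ∈ (S.erase e).erase j0, a e j * m j :=
    sum_nonneg fun j hj => hq j (mem_of_mem_erase hj)
  have h4 := hq j0 hj0
  have h5 : a e j0 * m j0 = 1 := by omega
  have h6 : ∑ j ∈ (S.erase e).erase j0, a e j * m j = 0 := by omega
  have h7 : a e j0 = 1 := Int.eq_one_of_mul_eq_one_right (hp j0 hj0) h5
  refine ⟨j0, fun _ => ⟨hj0, by rwa [h7, one_mul] at h5, fun i hi => ?_⟩⟩
  split_ifs with h
  · rw [h, h7]
  · have h8 := (sum_eq_zero_iff_of_nonneg fun j hj => hq j (mem_of_mem_erase hj)).1 h6 i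
      (mem_erase.2 ⟨h, hi⟩)
    have h9 := D.mp i (mem_of_mem_erase hi)
    rcases mul_eq_zero.1 h8 with h | h
    · exact h
    · omega

theorem at_j0 {j0 : I} (h1 : j0 ∈ S.erase e)
    (h2 : ∀ i ∈ S.erase e, a e i = if i = j0 then 1 else 0) (u : I → ℤ) :
    ∑ j ∈ S.erase e, a e j * u j = u j0 := by
  rw [sum_congr rfl fun i hi => by rw [h2 i hi]]
  simp only [ite_mul, one_mul, zero_mul, sum_ite_eq', if_pos h1]

theorem Vec.contract (D : Dat S a m k d η β M) (he : e ∈ S) (ha : a e e = -1) (hk : k e = -1)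
    (hβ : β e = 0) {j0 : I} (hj : m e = 1 → j0 ∈ S.erase e ∧ m j0 = 1 ∧
      ∀ i ∈ S.erase e, a e i = if i = j0 then 1 else 0) {o c : I} {v : I → ℤ}
    (V : Vec S a m k β o c v) :
    Vec (S.erase e) (fun i j => a i j + a e i * a e j) m (fun i => k i - a e i) β
      (if o = e then j0 else o) (if c = e then j0 else c) v := by
  have r1 := row_e (a := a) he ha v
  rw [V.av e he] at r1
  refine ⟨?_, ?_, ?_, ?_, fun i hi => V.vp i (mem_of_mem_erase hi), fun i hi => ?_, ?_, ?_⟩
  · split_ifs with h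
    · exact (hj (h ▸ V.mo)).1
    · exact mem_erase.2 ⟨h, V.oS⟩
  · split_ifs with h
    · exact (hj (h ▸ V.mc)).1
    · exact mem_erase.2 ⟨h, V.cS⟩
  · split_ifs with h
    · exact (hj (h ▸ V.mo)).2.1
    · exact V.mo
  · split_ifs with h
    · exact (hj (h ▸ V.mc)).2.1
    · exact V.mc
  · have hie := ne_of_mem_erase hi
    rw [row_i D he ha, V.av i (mem_of_mem_erase hi), V.av e he]
    by_cases h1 : o = e <;> by_cases h2 : c = e
    · subst h1; subst h2; simp
    · have := (hj (h1 ▸ V.mo)).2.2 i hi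
      subst h1
      simp only [if_true, if_neg h2, if_neg (Ne.symm h2), if_neg hie, this]; ring
    · have := (hj (h2 ▸ V.mc)).2.2 i hi
      subst h2
      simp only [if_true, if_neg h1, if_neg (Ne.symm h1), if_neg hie, this]; ring
    · simp only [if_neg h1, if_neg h2, if_neg (Ne.symm h1), if_neg (Ne.symm h2)]; ring
  · have h0 := V.kv
    have h3 := add_sum_erase S (fun j => k j * v j) he
    have h4 : ∑ i ∈ S.erase e, (k i - a e i) * v i =
        ∑ i ∈ S.erase e, k i * v i - ∑ i ∈ S.erase e, a e i * v i := by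
      rw [← sum_sub_distrib]
      exact sum_congr rfl fun j _ => by ring
    simp only [hk] at h3
    rw [h4]
    by_cases h1 : o = e <;> by_cases h2 : c = e
    · have := at_j0 (hj (h1 ▸ V.mo)).1 (hj (h1 ▸ V.mo)).2.2 v
      subst h1; subst h2
      simp only [if_true] at r1 ⊢; omega
    · have := at_j0 (hj (h1 ▸ V.mo)).1 (hj (h1 ▸ V.mo)).2.2 v
      subst h1
      simp only [if_true, if_neg h2, if_neg (Ne.symm h2)] at r1 ⊢; omega
    · have := at_j0 (hj (h2 ▸ V.mc)).1 (hj (h2 ▸ V.mc)).2.2 v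
      subst h2
      simp only [if_true, if_neg h1, if_neg (Ne.symm h1)] at r1 ⊢; omega
    · simp only [if_neg h1, if_neg h2, if_neg (Ne.symm h1), if_neg (Ne.symm h2)] at r1 ⊢; omega
  · have h3 := add_sum_erase S (fun j => β j * v j) he
    have h0 := V.βv
    simp only [hβ] at h3
    omega

end step

theorem num_on (n : ℕ) : ∀ (S : Finset I) (a : I → I → ℤ) (m k d η β : I → ℤ) (M : ℤ)
    (o c c' : I) (v w : I → ℤ), S.card = n → Dat S a m k d η β M → Vec S a m k β o c v →
    Vec S a m k β o c' w → v c = 0 ∧ w c' = 0 ∧ (w c = 0 ∨ d c' + M * w c ≤ d c) := by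
  induction n with
  | zero =>
    intro S a m k d η β M o c c' v w hS _ V _
    have := V.oS
    rw [card_eq_zero.1 hS] at this
    simp at this
  | succ n ih =>
    intro S a m k d η β M o c c' v w hS D V W
    by_cases hb : ∀ e ∈ S, (v e ≠ 0 ∨ w e ≠ 0) → 0 ≤ k e
    · have h1 : 0 ≤ ∑ i ∈ S, k i * v i := sum_nonneg fun i hi => by
        by_cases h : v i = 0
        · simp [h]
        · exact mul_nonneg (hb i hi (Or.inl h)) (V.vp i hi)
      have h2 : 0 ≤ ∑ i ∈ S, k i * w i := sum_nonneg fun i hi => by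
        by_cases h : w i = 0
        · simp [h]
        · exact mul_nonneg (hb i hi (Or.inr h)) (W.vp i hi)
      have := V.kv; have := W.kv
      have := V.vp c V.cS; have := V.vp o V.oS; have := W.vp c' W.cS; have := W.vp o W.oS
      exact ⟨by omega, by omega, Or.inl (lemZ D V W (by omega)).2⟩
    push Not at hb
    obtain ⟨e, he, hvw, hke⟩ := hb
    have hβ : β e = 0 := by
      rcases hvw with h | h
      · exact (mul_eq_zero.1 ((sum_eq_zero_iff_of_nonneg fun i hi =>
          mul_nonneg (D.βp i hi) (V.vp i hi)).1 V.βv e he)).resolve_right h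
      · exact (mul_eq_zero.1 ((sum_eq_zero_iff_of_nonneg fun i hi =>
          mul_nonneg (D.βp i hi) (W.vp i hi)).1 W.βv e he)).resolve_right h
    have hq : ∀ i ∈ S.erase e, 0 ≤ a e i * m i := fun i hi =>
      mul_nonneg (D.pos e he i (mem_of_mem_erase hi) (ne_of_mem_erase hi).symm)
        (zero_le_one.trans (D.mp i (mem_of_mem_erase hi)))
    have s1 := add_sum_erase S (fun j => a e j * m j) he
    rw [D.am e he] at s1
    have s2 : 0 ≤ ∑ j ∈ S.erase e, a e j * m j := sum_nonneg hq
    have hme := D.mp e he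
    have ha0 : a e e < 0 := by
      by_contra hge
      push Not at hge
      have s3 : 0 ≤ a e e * m e := mul_nonneg hge (by omega)
      have s4 : a e e * m e = 0 := by omega
      have s5 : ∑ j ∈ S.erase e, a e j * m j = 0 := by omega
      have s6 : ∀ j ∈ S, a e j = 0 := fun j hj => by
        by_cases h : j = e
        · subst h
          exact (mul_eq_zero.1 s4).resolve_right (by omega)
        · have := D.mp j hj
          exact (mul_eq_zero.1 ((sum_eq_zero_iff_of_nonneg hq).1 s5 j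
            (mem_erase.2 ⟨h, hj⟩))).resolve_right (by omega)
      have s7 := D.ad e he
      rw [sum_eq_zero fun j hj => by rw [s6 j hj, zero_mul], hβ] at s7
      have s8 := D.ηp e he
      have s9 : M * k e < 0 := mul_neg_of_pos_of_neg (by have := D.Mp; omega) hke
      omega
    have hadj := D.adj e he
    have ha : a e e = -1 := by omega
    have hk : k e = -1 := by omega
    obtain ⟨j0, hj⟩ := exists_j0 D he ha
    have D' := D.contract he ha hk hβ
    have V' := V.contract D he ha hk hβ hj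
    have W' := W.contract D he ha hk hβ hj
    obtain ⟨i1, i2, i3⟩ := ih _ _ _ _ _ _ _ _ _ _ _ _ _
      (by rw [card_erase_of_mem he, hS]; rfl) D' V' W'
    have rv := row_e (a := a) he ha v
    have rw' := row_e (a := a) he ha w
    have rd := row_e (a := a) he ha d
    rw [V.av e he] at rv
    rw [W.av e he] at rw'
    have key : ∀ {x : I} {u : I → ℤ}, Vec S a m k β o x u → u (if x = e then j0 else x) = 0 →
        u x = 0 ∧ (x = e → o = e) := by
      intro x u U hu
      by_cases h : x = e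
      · have t1 := at_j0 (hj (h ▸ U.mc)).1 (hj (h ▸ U.mc)).2.2 u
        have t2 := row_e (a := a) he ha u
        rw [U.av e he, if_pos h.symm] at t2
        rw [if_pos h] at hu
        have t3 := U.vp e he
        by_cases h' : e = o
        · rw [if_pos h'] at t2
          exact ⟨by rw [h]; omega, fun _ => h'.symm⟩
        · rw [if_neg h'] at t2
          omega
      · rw [if_neg h] at hu
        exact ⟨hu, fun h' => (h h').elim⟩
    obtain ⟨k1, k2⟩ := key V i1
    obtain ⟨k3, k4⟩ := key W i2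
    refine ⟨k1, k3, ?_⟩
    by_cases h1 : c = e <;> by_cases h2 : c' = e
    · left; rw [h1, ← h2]; exact k3
    · have ho := k2 h1
      have t1 := at_j0 (hj (h1 ▸ V.mc)).1 (hj (h1 ▸ V.mc)).2.2 w
      have t2 := at_j0 (hj (h1 ▸ V.mc)).1 (hj (h1 ▸ V.mc)).2.2 d
      have t3 := D.ad e he
      have t4 := D.ηp e he
      rw [hβ, hk] at t3
      rw [if_neg (Ne.symm h2), if_pos ho.symm] at rw'
      rw [if_pos h1, if_neg h2] at i3
      right
      have t5 : w e = w j0 + 1 := by omega
      rw [h1, t5]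
      rcases i3 with h | h
      · have t6 := (lemZ D' V' W' (by rw [if_pos ho]; exact h)).1
        rw [if_neg h2, if_pos ho] at t6
        rw [t6, h]; linarith
      · linarith
    · have ho := k4 h2
      have t6 := (lemZ D' V' W' (by rw [if_pos ho]; rwa [if_pos h2] at i2)).2
      rw [if_neg h1] at t6
      exact Or.inl t6
    · rwa [if_neg h1, if_neg h2] at i3

/-- The numerical contraction lemma. -/
theorem num [Fintype I] (a : I → I → ℤ) (m k d η β : I → ℤ) (M : ℤ) (o c c' : I) (v w : I → ℤ)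
    (sym : ∀ i j, a i j = a j i) (pos : ∀ i j, i ≠ j → 0 ≤ a i j) (mp : ∀ i, 1 ≤ m i)
    (am : ∀ i, ∑ j, a i j * m j = 0) (adj : ∀ i, -2 ≤ k i + a i i) (Mp : 1 ≤ M)
    (ηp : ∀ i, 0 ≤ η i) (βp : ∀ i, 0 ≤ β i)
    (ad : ∀ i, ∑ j, a i j * d j + η i - M * β i = M * k i)
    (mo : m o = 1) (mc : m c = 1) (mc' : m c' = 1) (vp : ∀ i, 0 ≤ v i) (wp : ∀ i, 0 ≤ w i)
    (av : ∀ i, ∑ j, a i j * v j = (if i = c then 1 else 0) - (if i = o then 1 else 0))
    (aw : ∀ i, ∑ j, a i j * w j = (if i = c' then 1 else 0) - (if i = o then 1 else 0))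
    (kv : ∑ i, k i * v i + v c + v o = 0) (kw : ∑ i, k i * w i + w c' + w o = 0)
    (βv : ∑ i, β i * v i = 0) (βw : ∑ i, β i * w i = 0) :
    v c = 0 ∧ w c' = 0 ∧ (w c = 0 ∨ d c' + M * w c ≤ d c) :=
  num_on _ univ a m k d η β M o c c' v w rfl
    ⟨sym, fun i _ j _ => pos i j, fun i _ => mp i, fun i _ => am i, fun i _ => adj i, Mp,
      fun i _ => ηp i, fun i _ => βp i, fun i _ => ad i⟩
    ⟨mem_univ _, mem_univ _, mo, mc, fun i _ => vp i, fun i _ => av i, kv, βv⟩
    ⟨mem_univ _, mem_univ _, mo, mc', fun i _ => wp i, fun i _ => aw i, kw, βw⟩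

end Pool.Agent.MP_c69980_ag.N96
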